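import Mathlib

/-!
# The survival number and the unrestricted Voronoi count differ (MP_785f4e, Q1)

For the lamplighter graph `LL(ℤ)` the survival number is at most `6`, while the unrestricted count
is infinite.
-/

namespace Pool.Agent.Results.MP_785f4e_co.LamplighterCounts

open SimpleGraph

section defs

variable {V : Type*}

/-- Every vertex can be moved to every other vertex by an automorphism. -/
def VertexTransitive (G : SimpleGraph V) : Prop := ∀ u v : V, ∃ φ : G ≃g G, φ u = v

/-- The Voronoi cell of `v` with respect to `T`. -/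
def Cell (G : SimpleGraph V) (v : V) (T : Finset V) : Set V :=
  {u | ∀ v' ∈ T, G.dist u v ≤ G.dist u v'}

/-- The family `𝒯(D, n)`. -/
def Sites (G : SimpleGraph V) (D n : ℕ) : Set (Finset V) :=
  {T | n ≤ T.card ∧ ∀ v₁ ∈ T, ∀ v₂ ∈ T, v₁ ≠ v₂ → D < G.dist v₁ v₂}

/-- The number of sites with an infinite Voronoi cell. -/
noncomputable def numInfinite (G : SimpleGraph V) (T : Finset V) : ℕ :=
  {v | v ∈ T ∧ (Cell G v T).Infinite}.ncard

/-- The survival number. -/
noncomputable def survival (G : SimpleGraph V) : ℕ∞ :=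
  sSup {m : ℕ∞ | ∃ n : ℕ, 1 ≤ n ∧ m = n ∧ ∃ D : ℕ, ∀ T ∈ Sites G D n, n ≤ numInfinite G T}

/-- The least number of infinite Voronoi cells for a set of `n` sites. -/
noncomputable def minInfinite (G : SimpleGraph V) (n : ℕ) : ℕ :=
  sInf {m | ∃ T : Finset V, T.card = n ∧ numInfinite G T = m}

end defs

/-- The lamplighter graph `LL(ℤ)`: a vertex consists of the finite set of sites where the lamp is
lit and of the position of the lamplighter; a step moves the lamplighter to a neighbouring site
and may toggle the lamps at the old and the new site. -/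
def LL : SimpleGraph (Finset ℤ × ℤ) where
  Adj x y := (y.2 = x.2 + 1 ∨ y.2 = x.2 - 1) ∧ symmDiff x.1 y.1 ⊆ {x.2, y.2}
  symm := ⟨fun x y h => by
    refine ⟨by have := h.1; omega, ?_⟩
    rw [symmDiff_comm, Finset.pair_comm]
    exact h.2⟩
  loopless := ⟨fun x h => by have := h.1; omega⟩

lemma len {v u : Finset ℤ × ℤ} (w : LL.Walk v u) : ∀ z ∈ w.support,
    (v.2 - z.2).natAbs + (z.2 - u.2).natAbs ≤ w.length := by
  induction w with
  | nil =>
    intro z hz
    rw [Walk.support_nil, List.mem_singleton] at hz
    subst hz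
    simp
  | @cons x y u h p ih =>
    intro z hz
    have h1 := h.1
    have h2 := ih y p.start_mem_support
    rw [Walk.support_cons, List.mem_cons] at hz
    rw [Walk.length_cons]
    rcases hz with rfl | hz
    · omega
    · have := ih z hz
      omega

lemma visit_between {v u : Finset ℤ × ℤ} (w : LL.Walk v u) : ∀ z ∈ w.support, ∀ m : ℤ,
    (v.2 ≤ m ∧ m ≤ z.2) ∨ (z.2 ≤ m ∧ m ≤ v.2) → ∃ z' ∈ w.support, z'.2 = m := by
  induction w with
  | @nil v =>
    intro z hz m hm
    rw [Walk.support_nil, List.mem_singleton] at hz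
    subst hz
    exact ⟨z, by simp, by omega⟩
  | @cons x y u h p ih =>
    intro z hz m hm
    by_cases hmx : m = x.2
    · exact ⟨x, by simp, hmx.symm⟩
    have h1 := h.1
    rw [Walk.support_cons, List.mem_cons] at hz
    rcases hz with rfl | hz
    · omega
    · obtain ⟨z', hz', e⟩ := ih z hz m (by omega)
      exact ⟨z', by rw [Walk.support_cons]; exact List.mem_cons_of_mem _ hz', e⟩

lemma mem_symmDiff_trans {A B C : Finset ℤ} {m : ℤ} (h : m ∈ symmDiff A C) :
    m ∈ symmDiff A B ∨ m ∈ symmDiff B C := by
  rw [Finset.mem_symmDiff] at h ⊢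
  rw [Finset.mem_symmDiff]
  tauto

lemma visit_diff {v u : Finset ℤ × ℤ} (w : LL.Walk v u) : ∀ m ∈ symmDiff v.1 u.1,
    ∃ z ∈ w.support, z.2 = m := by
  induction w with
  | nil =>
    intro m hm
    simp at hm
  | @cons x y u h p ih =>
    intro m hm
    rcases mem_symmDiff_trans (B := y.1) hm with hm | hm
    · have h1 := h.2 hm
      rw [Finset.mem_insert, Finset.mem_singleton] at h1
      rcases h1 with h1 | h1
      · exact ⟨x, by simp, h1.symm⟩
      · exact ⟨y, by simp, h1.symm⟩
    · obtain ⟨z', hz', e⟩ := ih m hm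
      exact ⟨z', by rw [Walk.support_cons]; exact List.mem_cons_of_mem _ hz', e⟩

lemma lift {v u : Finset ℤ × ℤ} (w : LL.Walk v u) : 1 ≤ w.length → ∀ C : Finset ℤ,
    (∀ m ∈ C, ∃ z ∈ w.support, z.2 = m) →
      ∃ w' : LL.Walk (symmDiff v.1 C, v.2) u, w'.length = w.length := by
  induction w with
  | nil =>
    intro h
    simp at h
  | @cons x y u h p ih =>
    intro _ C hC
    rcases Nat.eq_zero_or_pos p.length with h0 | h0
    · have hyu := Walk.eq_of_length_eq_zero h0
      subst hyu
      have hCs : C ⊆ {x.2, y.2} := by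
        intro m hm
        obtain ⟨z, hz, e⟩ := hC m hm
        rw [Walk.support_cons, List.mem_cons, Walk.nil_iff_support_eq.1
          (Walk.length_eq_zero_iff.1 h0), List.mem_singleton] at hz
        rw [Finset.mem_insert, Finset.mem_singleton]
        rcases hz with rfl | rfl
        · exact Or.inl e.symm
        · exact Or.inr e.symm
      have hadj : LL.Adj (symmDiff x.1 C, x.2) y := by
        refine ⟨h.1, ?_⟩
        intro m hm
        rcases mem_symmDiff_trans (B := x.1) hm with hm | hm
        · apply hCs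
          simp only [Finset.mem_symmDiff] at hm
          tauto
        · exact h.2 hm
      exact ⟨Walk.cons hadj Walk.nil, by simp [h0]⟩
    · obtain ⟨w', hw'⟩ := ih h0 (C \ {x.2, y.2}) (by
        intro m hm
        rw [Finset.mem_sdiff, Finset.mem_insert, Finset.mem_singleton] at hm
        obtain ⟨z, hz, e⟩ := hC m hm.1
        rw [Walk.support_cons, List.mem_cons] at hz
        rcases hz with rfl | hz
        · exact absurd (Or.inl e.symm) hm.2
        · exact ⟨z, hz, e⟩)
      have hadj : LL.Adj (symmDiff x.1 C, x.2) (symmDiff y.1 (C \ {x.2, y.2}), y.2) := by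
        refine ⟨h.1, ?_⟩
        intro m hm
        have h2 := @h.2 m
        simp only [Finset.mem_symmDiff, Finset.mem_sdiff] at hm h2
        tauto
      exact ⟨Walk.cons hadj w', by simp [hw']⟩

lemma right_walk (k : ℕ) : ∀ (A B : Finset ℤ) (p : ℤ), 1 ≤ k →
    symmDiff A B ⊆ Finset.Icc p (p + k) → ∃ w : LL.Walk (A, p) (B, p + k), w.length = k := by
  induction k with
  | zero => intro A B p h; omega
  | succ k ih =>
    intro A B p _ hAB
    rcases Nat.eq_zero_or_pos k with rfl | hk
    · have hadj : LL.Adj (A, p) (B, p + ((0 + 1 : ℕ) : ℤ)) := by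
        refine ⟨by simp, ?_⟩
        intro m hm
        have := hAB hm
        rw [Finset.mem_Icc] at this
        simp only [Finset.mem_insert, Finset.mem_singleton]
        omega
      exact ⟨Walk.cons hadj Walk.nil, by simp⟩
    · obtain ⟨w, hw⟩ := ih (symmDiff A (symmDiff A B ∩ {p})) B (p + 1) hk (by
        intro m hm
        have hmem : m ∈ symmDiff A B ∧ m ≠ p := by
          simp only [Finset.mem_symmDiff, Finset.mem_inter, Finset.mem_singleton] at hm ⊢
          tauto
        have := hAB hmem.1
        rw [Finset.mem_Icc] at this ⊢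
        have := hmem.2
        omega)
      have hadj : LL.Adj (A, p) (symmDiff A (symmDiff A B ∩ {p}), p + 1) := by
        refine ⟨by simp, ?_⟩
        intro m hm
        simp only [Finset.mem_symmDiff, Finset.mem_inter, Finset.mem_singleton,
          Finset.mem_insert] at hm ⊢
        tauto
      have e : p + 1 + (k : ℤ) = p + ((k + 1 : ℕ) : ℤ) := by push_cast; ring
      rw [← e]
      exact ⟨Walk.cons hadj w, by simp [hw]⟩

/-! ### Basic properties of the graph -/

lemma reach_pos (A : Finset ℤ) (p : ℤ) (k : ℕ) : LL.Reachable (A, p) (A, p + k) := by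
  rcases Nat.eq_zero_or_pos k with rfl | hk
  · simp
  · obtain ⟨w, -⟩ := right_walk k A A p hk (by simp)
    exact ⟨w⟩

lemma reach_pos' (A : Finset ℤ) (p q : ℤ) : LL.Reachable (A, p) (A, q) := by
  rcases le_total p q with h | h
  · have := reach_pos A p (q - p).toNat
    rwa [show p + ((q - p).toNat : ℤ) = q by omega] at this
  · have := reach_pos A q (p - q).toNat
    rw [show q + ((p - q).toNat : ℤ) = p by omega] at this
    exact this.symm

lemma reach_lamp (A : Finset ℤ) (m : ℤ) : LL.Reachable (insert m A, m) (A, m + 1) := by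
  have hadj : LL.Adj (insert m A, m) (A, m + 1) := by
    refine ⟨by simp, ?_⟩
    intro z hz
    simp only [Finset.mem_symmDiff, Finset.mem_insert, Finset.mem_singleton] at hz ⊢
    tauto
  exact hadj.reachable

lemma reach_zero (A : Finset ℤ) : ∀ p : ℤ, LL.Reachable (A, p) (∅, 0) := by
  induction A using Finset.induction_on with
  | empty => exact fun p => reach_pos' ∅ p 0
  | insert m A _ ih =>
    intro p
    exact ((reach_pos' (insert m A) p m).trans (reach_lamp A m)).trans (ih (m + 1))

lemma connected : LL.Connected := by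
  have : Nonempty (Finset ℤ × ℤ) := ⟨(∅, 0)⟩
  exact ⟨fun x y => (reach_zero x.1 x.2).trans (reach_zero y.1 y.2).symm⟩

lemma locally_finite (v : Finset ℤ × ℤ) : (LL.neighborSet v).Finite := by
  refine Set.Finite.subset (((({v.2 - 1, v.2, v.2 + 1} : Finset ℤ).powerset ×ˢ
    ({v.2 - 1, v.2 + 1} : Finset ℤ)).image (fun z => (symmDiff v.1 z.1, z.2))).finite_toSet) ?_
  intro u hu
  rw [mem_neighborSet] at hu
  rw [Finset.mem_coe, Finset.mem_image]
  refine ⟨(symmDiff v.1 u.1, u.2), ?_, ?_⟩
  · rw [Finset.mem_product, Finset.mem_powerset]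
    refine ⟨?_, ?_⟩
    · intro m hm
      have := hu.2 hm
      have h1 := hu.1
      simp only [Finset.mem_insert, Finset.mem_singleton] at this ⊢
      omega
    · have h1 := hu.1
      simp only [Finset.mem_insert, Finset.mem_singleton]
      omega
  · simp

/-- Switching lamps. -/
def switch (C : Finset ℤ) : LL ≃g LL where
  toEquiv := ⟨fun x => (symmDiff x.1 C, x.2), fun x => (symmDiff x.1 C, x.2),
    fun x => by simp, fun x => by simp⟩
  map_rel_iff' := by
    intro x y
    simp only [LL, Equiv.coe_fn_mk]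
    rw [symmDiff_symmDiff_symmDiff_comm, symmDiff_self, symmDiff_bot]

/-- Translation. -/
def shift (t : ℤ) : LL ≃g LL where
  toEquiv := ⟨fun x => (x.1.image (· + t), x.2 + t), fun x => (x.1.image (· + -t), x.2 + -t),
    fun x => Prod.ext (by ext m; simp) (by simp), fun x => Prod.ext (by ext m; simp) (by simp)⟩
  map_rel_iff' := by
    intro x y
    simp only [LL, Equiv.coe_fn_mk]
    rw [← Finset.image_symmDiff _ _ (add_left_injective t)]
    have e : ({x.2 + t, y.2 + t} : Finset ℤ) = ({x.2, y.2} : Finset ℤ).image (· + t) := by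
      rw [Finset.image_insert, Finset.image_singleton]
    rw [e, Finset.image_subset_image_iff (add_left_injective t)]
    refine and_congr_left (fun _ => ?_)
    omega

/-- Reflection. -/
def refl : LL ≃g LL where
  toEquiv := ⟨fun x => (x.1.image (- ·), -x.2), fun x => (x.1.image (- ·), -x.2),
    fun x => by simp [Finset.image_image], fun x => by simp [Finset.image_image]⟩
  map_rel_iff' := by
    intro x y
    simp only [LL, Equiv.coe_fn_mk]
    rw [← Finset.image_symmDiff _ _ neg_injective]
    have e : ({-x.2, -y.2} : Finset ℤ) = ({x.2, y.2} : Finset ℤ).image (- ·) := by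
      rw [Finset.image_insert, Finset.image_singleton]
    rw [e, Finset.image_subset_image_iff neg_injective]
    refine and_congr_left (fun _ => ?_)
    omega

lemma transitive : VertexTransitive LL := by
  intro u v
  refine ⟨(shift (v.2 - u.2)).trans (switch (symmDiff ((shift (v.2 - u.2)) u).1 v.1)), ?_⟩
  show (switch (symmDiff ((shift (v.2 - u.2)) u).1 v.1)) ((shift (v.2 - u.2)) u) = v
  apply Prod.ext
  · show symmDiff ((shift (v.2 - u.2)) u).1 (symmDiff ((shift (v.2 - u.2)) u).1 v.1) = v.1
    simp
  · show u.2 + (v.2 - u.2) = v.2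
    ring

lemma iso_le (φ : LL ≃g LL) (x y : Finset ℤ × ℤ) : LL.dist (φ x) (φ y) ≤ LL.dist x y := by
  obtain ⟨w, hw⟩ := connected.exists_walk_length_eq_dist x y
  rw [← hw, ← Walk.length_map φ.toHom w]
  exact dist_le _

lemma iso_dist (φ : LL ≃g LL) (x y : Finset ℤ × ℤ) : LL.dist (φ x) (φ y) = LL.dist x y := by
  apply le_antisymm (iso_le φ x y)
  have := iso_le φ.symm (φ x) (φ y)
  simpa using this

/-! ### Distances -/

lemma dist_lower (x y : Finset ℤ × ℤ) (m : ℤ) (hm : m ∈ symmDiff x.1 y.1) :
    (x.2 - m).natAbs + (m - y.2).natAbs ≤ LL.dist x y := by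
  obtain ⟨w, hw⟩ := connected.exists_walk_length_eq_dist x y
  obtain ⟨z, hz, e⟩ := visit_diff w m hm
  have := len w z hz
  rw [e] at this
  omega

/-- The set of the vertices which are not closer to some member of `W` than to `x`. -/
def Bad (W : Set (Finset ℤ × ℤ)) (x : Finset ℤ × ℤ) : Set (Finset ℤ × ℤ) :=
  {u | ∀ w ∈ W, LL.dist u x ≤ LL.dist u w}

/-! ### Shielding the origin -/

lemma lift_dist {y u : Finset ℤ × ℤ} (p : LL.Walk y u) (h1 : 1 ≤ p.length) (X : Finset ℤ)
    (hX : ∀ m ∈ symmDiff y.1 X, ∃ z ∈ p.support, z.2 = m) :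
    LL.dist (X, y.2) u ≤ p.length := by
  obtain ⟨w', hw'⟩ := lift p h1 _ hX
  have e : symmDiff y.1 (symmDiff y.1 X) = X := by simp
  have := dist_le w'
  rw [hw', e] at this
  exact this

/-- The key step: a far vertex is closer to one of three vertices near the origin with a distant
lamp. -/
lemma step (u : Finset ℤ × ℤ) (M a b c : ℤ) (ha : 2 ≤ a) (hb : 2 ≤ b) (hc : 2 ≤ c)
    (haM : a < M) (hbM : b < M) (hcM : c < M) (hu : M = u.2 ∨ M ∈ u.1) :
    LL.dist u ({a}, -1) < LL.dist u (∅, 0) ∨ LL.dist u ({b}, 1) < LL.dist u (∅, 0) ∨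
      LL.dist u ({0, c}, 1) < LL.dist u (∅, 0) := by
  rw [dist_comm, dist_comm (u := u) (v := (∅, 0)), dist_comm (u := u) (v := ({b}, 1)),
    dist_comm (u := u) (v := ({0, c}, 1))]
  obtain ⟨w, hw⟩ := connected.exists_walk_length_eq_dist (∅, 0) u
  rcases w with - | @⟨_, y, _, h, p⟩
  · rcases hu with hu | hu
    · simp only at hu
      omega
    · simp at hu
  · have h1 : y.2 = 1 ∨ y.2 = -1 := by
      have := h.1
      simpa using this
    have hA : ∀ m ∈ y.1, m = 0 ∨ m = y.2 := by
      intro m hm
      have h2 : m ∈ symmDiff (∅ : Finset ℤ) y.1 := by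
        rw [Finset.mem_symmDiff]
        right
        exact ⟨hm, by simp⟩
      have h3 := h.2 h2
      simpa using h3
    obtain ⟨z, hz, hzM⟩ : ∃ z ∈ p.support, z.2 = M := by
      rcases hu with hu | hu
      · exact ⟨u, p.end_mem_support, hu.symm⟩
      · apply visit_diff p M
        rw [Finset.mem_symmDiff]
        right
        refine ⟨hu, fun hM1 => ?_⟩
        have := hA M hM1
        omega
    have hlen : 1 ≤ p.length := by
      have := len p z hz
      rw [hzM] at this
      omega
    rw [Walk.length_cons] at hw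
    rw [← hw]
    have hvis : ∀ m : ℤ, y.2 ≤ m → m ≤ M → ∃ z' ∈ p.support, z'.2 = m := by
      intro m hm1 hm2
      exact visit_between p z hz m (by omega)
    rcases h1 with h1 | h1
    · right
      by_cases h0 : (0 : ℤ) ∈ y.1
      · right
        have := lift_dist p hlen {0, c} (by
          intro m hm
          apply hvis
          · rw [Finset.mem_symmDiff, Finset.mem_insert, Finset.mem_singleton] at hm
            rcases hm with ⟨h2, h3⟩ | ⟨h2, h3⟩
            · have := hA m h2
              push Not at h3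
              have := h3.1
              omega
            · rcases h2 with rfl | rfl
              · exact absurd h0 h3
              · omega
          · rw [Finset.mem_symmDiff, Finset.mem_insert, Finset.mem_singleton] at hm
            rcases hm with ⟨h2, h3⟩ | ⟨h2, h3⟩
            · have := hA m h2
              omega
            · omega)
        rw [h1] at this
        omega
      · left
        have := lift_dist p hlen {b} (by
          intro m hm
          apply hvis
          · rw [Finset.mem_symmDiff, Finset.mem_singleton] at hm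
            rcases hm with ⟨h2, h3⟩ | ⟨h2, h3⟩
            · have h4 := hA m h2
              rcases h4 with rfl | h4
              · exact absurd h2 h0
              · omega
            · omega
          · rw [Finset.mem_symmDiff, Finset.mem_singleton] at hm
            rcases hm with ⟨h2, h3⟩ | ⟨h2, h3⟩
            · have := hA m h2
              omega
            · omega)
        rw [h1] at this
        omega
    · left
      have := lift_dist p hlen {a} (by
        intro m hm
        rw [Finset.mem_symmDiff, Finset.mem_singleton] at hm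
        apply hvis
        · rcases hm with ⟨h2, h3⟩ | ⟨h2, h3⟩
          · have := hA m h2
            omega
          · omega
        · rcases hm with ⟨h2, h3⟩ | ⟨h2, h3⟩
          · have := hA m h2
            omega
          · omega)
      rw [h1] at this
      omega

/-- The mirror image of the key step. -/
lemma step' (u : Finset ℤ × ℤ) (M a b c : ℤ) (ha : 2 ≤ a) (hb : 2 ≤ b) (hc : 2 ≤ c)
    (haM : M < -a) (hbM : M < -b) (hcM : M < -c) (hu : M = u.2 ∨ M ∈ u.1) :
    LL.dist u ({-a}, 1) < LL.dist u (∅, 0) ∨ LL.dist u ({-b}, -1) < LL.dist u (∅, 0) ∨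
      LL.dist u ({0, -c}, -1) < LL.dist u (∅, 0) := by
  have h := step (refl u) (-M) a b c ha hb hc (by omega) (by omega) (by omega) (by
    rcases hu with hu | hu
    · left
      show -M = -u.2
      rw [hu]
    · right
      show -M ∈ u.1.image (- ·)
      exact Finset.mem_image_of_mem _ hu)
  have e0 : refl (∅, 0) = (∅, 0) := by
    show ((∅ : Finset ℤ).image (- ·), -(0 : ℤ)) = (∅, 0)
    simp
  have e1 : refl ({-a}, 1) = ({a}, -1) := by
    show (({-a} : Finset ℤ).image (- ·), -(1 : ℤ)) = ({a}, -1)
    simp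
  have e2 : refl ({-b}, -1) = ({b}, 1) := by
    show (({-b} : Finset ℤ).image (- ·), -(-1 : ℤ)) = ({b}, 1)
    simp
  have e3 : refl ({0, -c}, -1) = ({0, c}, 1) := by
    show (({0, -c} : Finset ℤ).image (- ·), -(-1 : ℤ)) = ({0, c}, 1)
    simp
  rw [← e0, ← e1, ← e2, ← e3] at h
  simpa only [iso_dist] using h

/-- The distant lamp of the `j`-th site. -/
def lamp (D j : ℕ) : ℤ := if j = 3 ∨ j = 4 ∨ j = 5 then -(D + 2 + j) else D + 2 + j

/-- The sites different from the origin. -/
def site (D j : ℕ) : Finset ℤ × ℤ :=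
  if j = 0 then ({lamp D j}, -1) else if j = 2 then ({0, lamp D j}, 1) else
    if j = 4 then ({lamp D j}, -1) else if j = 5 then ({0, lamp D j}, -1) else ({lamp D j}, 1)

lemma mem_site (D j : ℕ) (m : ℤ) : m ∈ (site D j).1 → m = 0 ∨ m = lamp D j := by
  unfold site
  split_ifs <;> simp <;> exact fun h => Or.inr h

lemma lamp_mem (D j : ℕ) : lamp D j ∈ (site D j).1 := by
  unfold site
  split_ifs <;> simp

lemma pos_site (D j : ℕ) : (site D j).2 = 1 ∨ (site D j).2 = -1 := by
  unfold site
  split_ifs <;> simp

lemma lamp_natAbs (D j : ℕ) : (lamp D j).natAbs = D + 2 + j := by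
  unfold lamp
  split_ifs <;> omega

lemma site_sep (D i j : ℕ) (hij : i ≠ j) : D < LL.dist (site D i) (site D j) := by
  have h1 := dist_lower (site D i) (site D j) (lamp D i) (by
    rw [Finset.mem_symmDiff]
    left
    refine ⟨lamp_mem D i, fun h => ?_⟩
    have h1 := mem_site D j _ h
    have h2 := lamp_natAbs D i
    have h3 := lamp_natAbs D j
    rcases h1 with h1 | h1
    · rw [h1] at h2
      simp at h2
      omega
    · rw [h1] at h2
      omega)
  have h2 := lamp_natAbs D i
  have h3 := pos_site D i
  omega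

lemma site_sep_zero (D j : ℕ) : D < LL.dist (∅, 0) (site D j) := by
  have h1 := dist_lower (∅, 0) (site D j) (lamp D j) (by
    rw [Finset.mem_symmDiff]
    right
    exact ⟨lamp_mem D j, by simp⟩)
  have h2 := lamp_natAbs D j
  simp only at h1
  omega

/-- A bounded set of vertices. -/
noncomputable def box (M : ℕ) : Finset (Finset ℤ × ℤ) :=
  (Finset.Icc (-(M : ℤ)) M).powerset ×ˢ Finset.Icc (-(M : ℤ)) M

lemma dominated (D n : ℕ) (hn : 6 ≤ n) (u : Finset ℤ × ℤ) (hu : u ∉ box (D + 2 + n)) :
    ∃ j < 6, LL.dist u (site D j) < LL.dist u (∅, 0) := by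
  obtain ⟨M, hM, hM'⟩ : ∃ M : ℤ, (M = u.2 ∨ M ∈ u.1) ∧ D + 2 + n < M.natAbs := by
    by_contra hcon
    push Not at hcon
    apply hu
    unfold box
    rw [Finset.mem_product, Finset.mem_powerset, Finset.mem_Icc]
    refine ⟨?_, ?_⟩
    · intro m hm
      have := hcon m (Or.inr hm)
      rw [Finset.mem_Icc]
      omega
    · have := hcon u.2 (Or.inl rfl)
      omega
  rcases le_or_gt 0 M with h0 | h0
  · rcases step u M (D + 2 + (0 : ℕ)) (D + 2 + (1 : ℕ)) (D + 2 + (2 : ℕ)) (by omega) (by omega)
      (by omega) (by omega) (by omega) (by omega) hM with h | h | h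
    · exact ⟨0, by norm_num, by simpa [site, lamp] using h⟩
    · exact ⟨1, by norm_num, by simpa [site, lamp] using h⟩
    · exact ⟨2, by norm_num, by simpa [site, lamp] using h⟩
  · rcases step' u M (D + 2 + (3 : ℕ)) (D + 2 + (4 : ℕ)) (D + 2 + (5 : ℕ)) (by omega) (by omega)
      (by omega) (by omega) (by omega) (by omega) hM with h | h | h
    · exact ⟨3, by norm_num, by simpa [site, lamp] using h⟩
    · exact ⟨4, by norm_num, by simpa [site, lamp] using h⟩
    · exact ⟨5, by norm_num, by simpa [site, lamp] using h⟩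

lemma few (D n : ℕ) (hn : 7 ≤ n) : ∃ T ∈ Sites LL D n, numInfinite LL T < n := by
  classical
  have hne : ∀ j, site D j ≠ (∅, 0) := by
    intro j h
    have h1 := site_sep_zero D j
    rw [h] at h1
    simp at h1
  have hinj : Function.Injective (site D) := by
    intro i j h
    by_contra hij
    have h1 := site_sep D i j hij
    rw [h] at h1
    simp at h1
  refine ⟨insert (∅, 0) ((Finset.range (n - 1)).image (site D)), ⟨?_, ?_⟩, ?_⟩
  · rw [Finset.card_insert_of_notMem, Finset.card_image_of_injective _ hinj, Finset.card_range]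
    · omega
    · rw [Finset.mem_image]
      rintro ⟨j, -, hj⟩
      exact hne j hj
  · intro v₁ h₁ v₂ h₂ hne'
    rw [Finset.mem_insert, Finset.mem_image] at h₁ h₂
    rcases h₁ with rfl | ⟨i, -, rfl⟩ <;> rcases h₂ with rfl | ⟨j, -, rfl⟩
    · exact absurd rfl hne'
    · exact site_sep_zero D j
    · rw [dist_comm]
      exact site_sep_zero D i
    · apply site_sep
      rintro rfl
      exact hne' rfl
  · set T := insert ((∅ : Finset ℤ), (0 : ℤ)) ((Finset.range (n - 1)).image (site D)) with hT
    have hcell : ¬ (Cell LL (∅, 0) T).Infinite := by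
      rw [Set.not_infinite]
      refine (box (D + 2 + n)).finite_toSet.subset ?_
      intro u hu
      by_contra hcon
      obtain ⟨j, hj, hlt⟩ := dominated D n (by omega) u hcon
      have h1 := hu (site D j) (by
        rw [hT]
        exact Finset.mem_insert_of_mem (Finset.mem_image_of_mem _
          (Finset.mem_range.2 (by omega))))
      omega
    have h1 : {v | v ∈ T ∧ (Cell LL v T).Infinite} ⊆
        (((Finset.range (n - 1)).image (site D) : Finset (Finset ℤ × ℤ)) :
          Set (Finset ℤ × ℤ)) := by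
      rintro v ⟨hv, hv'⟩
      rw [hT, Finset.mem_insert] at hv
      rcases hv with rfl | hv
      · exact absurd hv' hcell
      · exact hv
    have h2 := Set.ncard_le_ncard h1 (Finset.finite_toSet _)
    rw [Set.ncard_coe_finset] at h2
    have h3 := Finset.card_image_le (s := Finset.range (n - 1)) (f := site D)
    rw [Finset.card_range] at h3
    unfold numInfinite
    omega

lemma survival_le : survival LL ≤ 6 := by
  apply sSup_le
  rintro m ⟨n, -, rfl, D, h⟩
  have hn : n ≤ 6 := by
    by_contra hcon
    obtain ⟨T, hT, hlt⟩ := few D n (by omega)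
    have := h T hT
    omega
  exact_mod_cast hn

/-! ### The unrestricted count -/

open Classical in
/-- The sites with an infinite cell. -/
noncomputable def inf (T : Finset (Finset ℤ × ℤ)) : Finset (Finset ℤ × ℤ) :=
  T.filter (fun v => (Cell LL v T).Infinite)

lemma numInfinite_eq (T : Finset (Finset ℤ × ℤ)) : numInfinite LL T = (inf T).card := by
  classical
  unfold numInfinite
  rw [← Set.ncard_coe_finset]
  congr 1
  ext v
  simp [inf]

lemma bad_finite (T : Finset (Finset ℤ × ℤ)) (x : Finset ℤ × ℤ) (hx : x ∈ T) (hxi : x ∉ inf T) :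
    (Bad (inf T) x).Finite := by
  classical
  have h1 : (⋃ v ∈ T.filter (fun v => v ∉ inf T), Cell LL v T).Finite := by
    apply Set.Finite.biUnion (Finset.finite_toSet _)
    intro v hv
    rw [Finset.mem_coe, Finset.mem_filter] at hv
    unfold inf at hv
    rw [Finset.mem_filter] at hv
    by_contra hcon
    exact hv.2 ⟨hv.1, hcon⟩
  refine h1.subset ?_
  intro u hu
  obtain ⟨v, hv, hmin⟩ := T.exists_min_image (fun v => LL.dist u v) ⟨x, hx⟩
  rw [Set.mem_iUnion₂]
  by_cases hvi : v ∈ inf T
  · refine ⟨x, by rw [Finset.mem_filter]; exact ⟨hx, hxi⟩, ?_⟩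
    intro v' hv'
    exact (hu v hvi).trans (hmin v' hv')
  · exact ⟨v, by rw [Finset.mem_filter]; exact ⟨hv, hvi⟩, hmin⟩

/-- A shielded vertex is close to a site with the same lamps on its left. -/
lemma left (W : Finset (Finset ℤ × ℤ)) (x : Finset ℤ × ℤ) (h : (Bad W x).Finite) :
    ∃ w ∈ W, x.2 < w.2 ∧ w.2 < x.2 + 2 * W.card ∧ ∀ y < x.2, (y ∈ x.1 ↔ y ∈ w.1) := by
  classical
  obtain ⟨idx, hinj, hlt⟩ : ∃ idx : Finset ℤ × ℤ → ℕ, Set.InjOn idx W ∧
      ∀ w ∈ W, idx w < W.card := by
    refine ⟨fun w => if hw : w ∈ W then (W.equivFin ⟨w, hw⟩ : ℕ) else 0, ?_, ?_⟩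
    · intro w hw w' hw' e
      rw [Finset.mem_coe] at hw hw'
      simp only [hw, hw', dif_pos] at e
      have := W.equivFin.injective (Fin.ext e)
      exact congrArg Subtype.val this
    · intro w hw
      simp only [hw, dif_pos]
      exact (W.equivFin ⟨w, hw⟩).2
  set g : Finset ℤ := (x.1.filter (· < x.2)) ∪
    (((Finset.range W.card).image (fun i : ℕ => x.2 + i)).filter
      (fun y => ∀ w ∈ W, x.2 + idx w = y → y ∉ w.1)) with hg
  have hg1 : ∀ y < x.2, (y ∈ x.1 ↔ y ∈ g) := by
    intro y hy
    rw [hg, Finset.mem_union, Finset.mem_filter, Finset.mem_filter, Finset.mem_image]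
    constructor
    · intro h
      exact Or.inl ⟨h, hy⟩
    · rintro (⟨h, -⟩ | ⟨⟨i, -, rfl⟩, -⟩)
      · exact h
      · omega
  have hg2 : ∀ y ∈ g, y < x.2 + W.card := by
    intro y hy
    rw [hg, Finset.mem_union, Finset.mem_filter, Finset.mem_filter, Finset.mem_image] at hy
    rcases hy with ⟨-, hy⟩ | ⟨⟨i, hi, rfl⟩, -⟩
    · omega
    · rw [Finset.mem_range] at hi
      omega
  have hg3 : ∀ w ∈ W, x.2 + (idx w : ℤ) ∈ symmDiff g w.1 := by
    intro w hw
    rw [Finset.mem_symmDiff]
    by_cases hy : x.2 + (idx w : ℤ) ∈ w.1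
    · right
      refine ⟨hy, fun hcon => ?_⟩
      rw [hg, Finset.mem_union, Finset.mem_filter, Finset.mem_filter, Finset.mem_image] at hcon
      rcases hcon with ⟨-, hcon⟩ | ⟨-, hcon⟩
      · omega
      · exact hcon w hw rfl hy
    · left
      refine ⟨?_, hy⟩
      rw [hg, Finset.mem_union, Finset.mem_filter, Finset.mem_filter, Finset.mem_image]
      right
      refine ⟨⟨idx w, Finset.mem_range.2 (hlt w hw), rfl⟩, ?_⟩
      intro w' hw' e
      have : idx w' = idx w := by omega
      rw [hinj hw' hw this]
      exact hy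
  obtain ⟨k₀, hk₀⟩ : ∃ k₀ : ℕ, ∀ y ∈ x.1, y ≤ x.2 + k₀ := by
    refine ⟨x.1.sup (fun y => (y - x.2).toNat), fun y hy => ?_⟩
    have := Finset.le_sup (f := fun y => (y - x.2).toNat) hy
    omega
  obtain ⟨k, hk, hk'⟩ : ∃ k : ℕ, k₀ + W.card + 1 ≤ k ∧ (g, x.2 + (k : ℤ)) ∉ Bad W x := by
    by_contra hcon
    push Not at hcon
    have hinf : (Bad W x).Infinite := by
      apply Set.infinite_of_injective_forall_mem
        (f := fun k : ℕ => (g, x.2 + ((k₀ + W.card + 1 + k : ℕ) : ℤ)))
      · intro a b e
        have := congrArg Prod.snd e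
        simp only at this
        omega
      · intro k
        exact hcon _ (by omega)
    exact hinf h
  have hxk : LL.dist (g, x.2 + (k : ℤ)) x ≤ k := by
    obtain ⟨w, hw⟩ := right_walk k x.1 g x.2 (by omega) (by
      intro y hy
      rw [Finset.mem_Icc]
      rw [Finset.mem_symmDiff] at hy
      constructor
      · by_contra hlt'
        have := hg1 y (by omega)
        tauto
      · rcases hy with ⟨hy, -⟩ | ⟨hy, -⟩
        · have := hk₀ y hy
          omega
        · have := hg2 y hy
          omega)
    rw [SimpleGraph.dist_comm]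
    exact (dist_le w).trans hw.le
  unfold Bad at hk'
  rw [Set.mem_ofPred_eq] at hk'
  push Not at hk'
  obtain ⟨w, hw, hlt'⟩ := hk'
  rw [Finset.mem_coe] at hw
  have h1 := dist_lower (g, x.2 + (k : ℤ)) w _ (hg3 w hw)
  have h2 := hlt w hw
  simp only at h1
  refine ⟨w, hw, by omega, by omega, ?_⟩
  intro y hy
  rw [hg1 y hy]
  by_contra hcon
  have h3 := dist_lower (g, x.2 + (k : ℤ)) w y (by
    rw [Finset.mem_symmDiff]
    tauto)
  simp only at h3
  omega

/-- A shielded vertex is close to a site with the same lamps on its right. -/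
lemma right (W : Finset (Finset ℤ × ℤ)) (x : Finset ℤ × ℤ) (h : (Bad W x).Finite) :
    ∃ w ∈ W, ∀ y, x.2 < y → (y ∈ x.1 ↔ y ∈ w.1) := by
  classical
  have h1 : (Bad (W.image refl : Finset (Finset ℤ × ℤ)) (refl x)).Finite := by
    refine (h.image refl).subset ?_
    intro u hu
    refine ⟨refl.symm u, ?_, by simp⟩
    intro w hw
    have := hu (refl w) (by
      rw [Finset.mem_coe]
      exact Finset.mem_image_of_mem _ hw)
    have e : u = refl (refl.symm u) := by simp
    rw [e, iso_dist, iso_dist] at this
    exact this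
  obtain ⟨w', hw', -, -, h2⟩ := left _ _ h1
  rw [Finset.mem_image] at hw'
  obtain ⟨w, hw, rfl⟩ := hw'
  refine ⟨w, hw, fun y hy => ?_⟩
  have h3 := h2 (-y) (by
    show -y < -x.2
    omega)
  have e : ∀ z : Finset ℤ × ℤ, (-y ∈ (refl z).1 ↔ y ∈ z.1) := by
    intro z
    show -y ∈ z.1.image (- ·) ↔ y ∈ z.1
    rw [Finset.mem_image]
    constructor
    · rintro ⟨a, ha, e⟩
      have : a = y := by omega
      rwa [← this]
    · intro hy
      exact ⟨y, hy, rfl⟩
  rw [e, e] at h3
  exact h3

/-- The number of sites is bounded in terms of the number of infinite cells. -/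
lemma card_le (T : Finset (Finset ℤ × ℤ)) :
    T.card ≤ (inf T).card + (inf T).card * ((inf T).card * (2 * (inf T).card * 2)) := by
  classical
  have hleft : ∀ x ∈ T \ inf T, ∃ w ∈ inf T, x.2 < w.2 ∧ w.2 < x.2 + 2 * (inf T).card ∧
      ∀ y < x.2, (y ∈ x.1 ↔ y ∈ w.1) := by
    intro x hx
    rw [Finset.mem_sdiff] at hx
    exact left _ _ (bad_finite T x hx.1 hx.2)
  have hright : ∀ x ∈ T \ inf T, ∃ w ∈ inf T, ∀ y, x.2 < y → (y ∈ x.1 ↔ y ∈ w.1) := by
    intro x hx
    rw [Finset.mem_sdiff] at hx
    exact right _ _ (bad_finite T x hx.1 hx.2)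
  choose! a ha using hleft
  choose! b hb using hright
  have h1 : (T \ inf T).card ≤
      (inf T ×ˢ (inf T ×ˢ (Finset.range (2 * (inf T).card) ×ˢ (Finset.univ : Finset Bool)))).card := by
    apply Finset.card_le_card_of_injOn
      (fun x => (a x, b x, ((a x).2 - x.2).toNat, decide (x.2 ∈ x.1)))
    · intro x hx
      obtain ⟨h1, h2, h3, -⟩ := ha x hx
      obtain ⟨h4, -⟩ := hb x hx
      rw [Finset.mem_coe, Finset.mem_product, Finset.mem_product, Finset.mem_product,
        Finset.mem_range]
      exact ⟨h1, h4, by simp only; omega, Finset.mem_univ _⟩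
    · intro x hx x' hx' e
      rw [Finset.mem_coe] at hx hx'
      obtain ⟨h1, h2, h3, h4⟩ := ha x hx
      obtain ⟨h5, h6⟩ := hb x hx
      obtain ⟨h1', h2', h3', h4'⟩ := ha x' hx'
      obtain ⟨h5', h6'⟩ := hb x' hx'
      simp only [Prod.mk.injEq] at e
      obtain ⟨e1, e2, e3, e4⟩ := e
      rw [e1] at h2 h3 h4 e3
      rw [e2] at h6
      have e5 : x.2 = x'.2 := by omega
      apply Prod.ext
      · ext y
        rcases lt_trichotomy y x.2 with hy | hy | hy
        · rw [h4 y hy, h4' y (by omega)]
        · rw [hy, decide_eq_decide.1 e4, e5]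
        · rw [h6 y hy, h6' y (by omega)]
      · exact e5
  rw [Finset.card_product, Finset.card_product, Finset.card_product, Finset.card_range,
    Finset.card_univ, Fintype.card_bool] at h1
  have h2 : (T \ inf T).card = T.card - (inf T).card := by
    apply Finset.card_sdiff_of_subset
    unfold inf
    exact Finset.filter_subset _ _
  omega

lemma le_min (n : ℕ) : n ≤ minInfinite LL n +
    minInfinite LL n * (minInfinite LL n * (2 * minInfinite LL n * 2)) := by
  have hne : {m | ∃ T : Finset (Finset ℤ × ℤ), T.card = n ∧ numInfinite LL T = m}.Nonempty := by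
    obtain ⟨T, hT⟩ := Infinite.exists_subset_card_eq (Finset ℤ × ℤ) n
    exact ⟨_, T, hT, rfl⟩
  obtain ⟨T, hT, hm⟩ := Nat.sInf_mem hne
  have h := card_le T
  rw [← numInfinite_eq, hm, hT] at h
  exact h

lemma tendsto_min : Filter.Tendsto (minInfinite LL) Filter.atTop Filter.atTop := by
  rw [Filter.tendsto_atTop]
  intro M
  rw [Filter.eventually_atTop]
  refine ⟨M + M * (M * (2 * M * 2)) + 1, fun n hn => ?_⟩
  by_contra hcon
  rw [not_le] at hcon
  have h := le_min n
  have h2 : minInfinite LL n + minInfinite LL n * (minInfinite LL n * (2 * minInfinite LL n * 2)) ≤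
      M + M * (M * (2 * M * 2)) := by
    gcongr
  omega

/-- **Result.** There is an infinite, connected, locally finite, vertex-transitive graph whose
survival number is finite (at most `6`), while the least number of infinite Voronoi cells of a set
of `n` sites tends to infinity with `n`. -/
theorem result : ∃ (V : Type) (G : SimpleGraph V), Infinite V ∧ G.Connected ∧
    (∀ v, (G.neighborSet v).Finite) ∧ VertexTransitive G ∧ survival G ≤ 6 ∧
      Filter.Tendsto (minInfinite G) Filter.atTop Filter.atTop :=
  ⟨Finset ℤ × ℤ, LL, inferInstance, connected, locally_finite, transitive, survival_le,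
    tendsto_min⟩

end Pool.Agent.Results.MP_785f4e_co.LamplighterCounts
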